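import Pool.Agent.H85.SD.Ex

/-!
The choice of the multiplier `f` (helper91; adapted from helper85's `exists_f`).
-/

set_option autoImplicit false
open scoped Classical

namespace H91D2

open H85SD

variable {p : ℕ} {R : Type} [CommRing R] [Algebra (ZMod p) R]

theorem choose_f [Fact p.Prime] [FiniteDimensional (ZMod p) R] (T : TB p R) {ι : Type} [Fintype ι]
    (a : ι → R) (L : ι → Set R) {Dm : ℕ} {q : ℝ} (hq0 : 0 < q) (hN : ∑ i, UU T q Dm (a i) (L i) < U0 T q Dm) :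
    ∃ (D : ℕ) (f : R), D ≤ Dm ∧ f ∈ T.P D ∧ f ∉ T.K ∧ ∀ i, ∀ g ∈ L i, f * (a i * g) ∈ T.K := by
  have hdeg : ∃ D ∈ Finset.range (Dm + 1), ∑ i, rr T D (a i) (L i) < hD T D := by
    by_contra hcon
    push Not at hcon
    have h2 : U0 T q Dm ≤ ∑ i, UU T q Dm (a i) (L i) := by
      simp only [U0, UU]
      rw [Finset.sum_comm]
      refine Finset.sum_le_sum fun D hDr => ?_
      rw [← Finset.mul_sum]
      exact mul_le_mul_of_nonneg_left (hcon D hDr) (pow_nonneg hq0.le D)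
    linarith
  obtain ⟨D, hDr, hlt⟩ := hdeg
  rw [Finset.mem_range] at hDr
  have hdim := SizeDegree.inter_dim (T.P D) (fun i => An T D (a i) (L i)) (fun i => inf_le_left) Finset.univ
  have hne : ¬ (T.P D ⊓ Finset.univ.inf (fun i => An T D (a i) (L i)) ≤ T.K) := by
    intro hle
    have h2 : Module.finrank (ZMod p) ↥(T.P D ⊓ Finset.univ.inf (fun i => An T D (a i) (L i))) ≤
        Module.finrank (ZMod p) ↥(T.P D ⊓ T.K) := Submodule.finrank_mono (le_inf inf_le_left hle)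
    have h3 : (Module.finrank (ZMod p) ↥(T.P D ⊓ Finset.univ.inf (fun i => An T D (a i) (L i))) : ℝ) ≤
        Module.finrank (ZMod p) ↥(T.P D ⊓ T.K) := by exact_mod_cast h2
    rw [hD] at hlt
    simp only [rr] at hlt
    linarith
  rw [SetLike.not_le_iff_exists] at hne
  obtain ⟨f, hf, hfK⟩ := hne
  obtain ⟨hf1, hf2⟩ := Submodule.mem_inf.1 hf
  refine ⟨D, f, by omega, hf1, hfK, fun i => ?_⟩
  have h3 : f ∈ An T D (a i) (L i) := by
    have h4 : Finset.univ.inf (fun i => An T D (a i) (L i)) ≤ An T D (a i) (L i) := Finset.inf_le (Finset.mem_univ i)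
    exact h4 hf2
  exact (Submodule.mem_inf.1 h3).2

/-- the approximation of the elements of a finite family of lines -/
theorem approx_all [Fact p.Prime] [FiniteDimensional (ZMod p) R] [Finite R] (T : TB p R) {ι : Type}
    (L : ι → Set R) {e Dm w : ℕ} (he : e ≤ Dm) (hL : ∀ i, ∀ g ∈ L i, g ∈ T.P e) (hLi : ∀ i, ∀ g ∈ L i, g * g = g)
    (hd : Dm + (e * (p - 1) * w + e) + e * (p + 1) ≤ T.d) {q : ℝ} (hq0 : 0 ≤ q) (hq1 : q ≤ 1) :
    ∃ a : ι → R, ∀ i, a i ∈ T.P (e * (p - 1) * w) ∧ a i * a i = a i ∧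
      (∃ (mm : ℕ) (c g : Fin mm → R), (∀ r, c r ∈ T.P (e * (p - 1) * w)) ∧ (∀ r, g r ∈ L i) ∧
        1 - a i = ∑ r, c r * g r) ∧
      UU T q Dm (a i) (L i) ≤ tau T q (Dm - e) e + (1 - (1 - 1 / (p : ℝ)) * q ^ e) ^ w * U0 T q Dm := by
  have hap : ∀ i, ∃ a ∈ T.P (e * (p - 1) * w), a * a = a ∧ (∃ (mm : ℕ) (c g : Fin mm → R),
      (∀ r, c r ∈ T.P (e * (p - 1) * w)) ∧ (∀ r, g r ∈ L i) ∧ 1 - a = ∑ r, c r * g r) ∧
        UU T q Dm a (L i) ≤ tau T q (Dm - e) e + (1 - (1 - 1 / (p : ℝ)) * q ^ e) ^ w * U0 T q Dm := by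
    intro i
    obtain ⟨m, g, hg⟩ := enum (L i)
    have hgm : ∀ r, g r ∈ L i := fun r => hg ▸ Set.mem_range_self r
    obtain ⟨a, ha, ⟨haa, c, hc, hca⟩, hU⟩ := approx T (D0 := Dm - e) g (fun r => hL i _ (hgm r))
      (fun r => hLi i _ (hgm r)) hq0 hq1 w (by omega)
    rw [Nat.sub_add_cancel he, hg] at hU
    exact ⟨a, ha, haa, ⟨m, c, g, hc, hgm, hca⟩, hU⟩
  choose a ha haa hc hU using hap
  exact ⟨a, fun i => ⟨ha i, haa i, hc i, hU i⟩⟩

end H91D2
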