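import Pool.Agent.H91.D2.Defs
import Pool.Agent.H91.D2.Ch

/-!
Soundness modulo `K` of the refutations with gates (helper91; project MP_28250c_D2).
-/

set_option autoImplicit false
open scoped Classical

namespace H91D2

open SizeDegree GateLines H85SD

section psi
variable {p n M : ℕ}

/-- substitution of functions for the gates -/
noncomputable def mix (b : Fin M → Pt n → ZMod p) (x : Pt n) : Pt (M + n) :=
  Fin.append (fun j => decide (b j x = 1)) x

theorem vars_mix (b : Fin M → Pt n → ZMod p) (x : Pt n) : vars (mix b x) = x := by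
  funext i
  unfold vars mix
  rw [Fin.append_right]

/-- substitution of functions for the gates -/
noncomputable def psi (b : Fin M → Pt n → ZMod p) : (Pt (M + n) → ZMod p) →ₗ[ZMod p] (Pt n → ZMod p) :=
  LinearMap.funLeft (ZMod p) (ZMod p) (mix b)

theorem psi_apply (b : Fin M → Pt n → ZMod p) (F : Pt (M + n) → ZMod p) (x : Pt n) : psi b F x = F (mix b x) := rfl

theorem psi_one (b : Fin M → Pt n → ZMod p) : psi b 1 = 1 := rfl

theorem psi_lift (b : Fin M → Pt n → ZMod p) (g : Pt n → ZMod p) : psi b (lift M g) = g := by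
  funext x
  rw [psi_apply]
  unfold lift
  rw [vars_mix]

theorem psi_gate (b : Fin M → Pt n → ZMod p) (h01 : ∀ j x, b j x = 0 ∨ b j x = 1) (j : Fin M) :
    psi b (gate n j) = b j := by
  funext x
  rw [psi_apply]
  unfold gate mix
  rw [Fin.append_left]
  rcases h01 j x with h | h
  · rw [h]
    by_cases h1 : (0 : ZMod p) = 1
    · simp [h1]
    · simp [h1]
  · simp [h]

theorem prod_PP {ι : Type} {Δ : ℕ} (c : ι → Pt n → ZMod p) (S : Finset ι) (hc : ∀ i ∈ S, c i ∈ PP p n Δ) :
    ∏ i ∈ S, c i ∈ PP p n (Δ * S.card) := by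
  induction S using Finset.induction_on with
  | empty => rw [Finset.prod_empty, Finset.card_empty, mul_zero]; exact PP_one
  | insert i S hi ih =>
    rw [Finset.prod_insert hi, Finset.card_insert_of_notMem hi, Nat.mul_succ, add_comm]
    exact PP_mul (hc i (Finset.mem_insert_self i S)) (ih fun j hj => hc j (Finset.mem_insert_of_mem hj))

theorem psi_deg (b : Fin M → Pt n → ZMod p) (h01 : ∀ j x, b j x = 0 ∨ b j x = 1) {e Δ : ℕ} (hΔ : 1 ≤ Δ)
    (hb : ∀ j, b j ∈ PP p n Δ) {F : Pt (M + n) → ZMod p} (hF : DegLE e F) : psi b F ∈ PP p n (e * Δ) := by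
  obtain ⟨a, ha⟩ := hF
  have hc : ∀ i : Fin (M + n), (fun x : Pt n => if mix b x i = true then (1 : ZMod p) else 0) ∈ PP p n Δ := by
    intro i
    induction i using Fin.addCases with
    | left j =>
      have h1 : (fun x : Pt n => if mix b x (Fin.castAdd n j) = true then (1 : ZMod p) else 0) = b j := by
        rw [← psi_gate b h01 j]
        rfl
      rw [h1]
      exact hb j
    | right i =>
      have h1 : (fun x : Pt n => if mix b x (Fin.natAdd M i) = true then (1 : ZMod p) else 0) =
          fun x : Pt n => if x (i, true).1 = (i, true).2 then (1 : ZMod p) else 0 := by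
        funext x
        unfold mix
        rw [Fin.append_right]
      rw [h1]
      exact PP_mono hΔ (PP_lit (i, true))
  have h1 : psi b F = ∑ T ∈ Finset.univ.filter (fun T : Finset (Fin (M + n)) => T.card ≤ e),
      a T • ∏ i ∈ T, (fun x : Pt n => if mix b x i = true then (1 : ZMod p) else 0) := by
    funext x
    rw [psi_apply, ha, Finset.sum_apply]
    refine Finset.sum_congr rfl fun T _ => ?_
    rw [Pi.smul_apply, Finset.prod_apply, smul_eq_mul]
  rw [h1]
  refine Submodule.sum_mem _ fun T hT => Submodule.smul_mem _ _ ?_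
  rw [Finset.mem_filter] at hT
  refine PP_mono ?_ (prod_PP _ T fun i _ => hc i)
  rw [mul_comm]
  exact Nat.mul_le_mul_right _ hT.2

theorem psi_cond (b : Fin M → Pt n → ZMod p) (h01 : ∀ j x, b j x = 0 ∨ b j x = 1) {e Δ : ℕ} (hΔ : 1 ≤ Δ)
    (hb : ∀ j, b j ∈ PP p n Δ) {F : Pt (M + n) → ZMod p} (hF : Cond e F) : Cond (e * Δ) (psi b F) :=
  ⟨psi_deg b h01 hΔ hb hF.1, fun x => hF.2 _⟩

theorem cond_idem {d : ℕ} {g : Pt n → ZMod p} (hg : Cond d g) : g * g = g := by
  funext x
  rw [Pi.mul_apply]
  rcases hg.2 x with h | h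
  · rw [h, mul_zero]
  · rw [h, mul_one]

end psi

theorem idem_01 {p n : ℕ} [Fact p.Prime] {g : Pt n → ZMod p} (h : g * g = g) (x : Pt n) : g x = 0 ∨ g x = 1 := by
  have h1 := congrFun h x
  rw [Pi.mul_apply] at h1
  by_cases h0 : g x = 0
  · exact Or.inl h0
  · right
    have h2 : g x * g x = g x * 1 := by rw [h1, mul_one]
    exact mul_left_cancel₀ h0 h2

theorem core {p : ℕ} [Fact p.Prime] {n m e f s k d N w1 w2 Δ D1 Dm : ℕ} (Φ : Fin m → Clause n)
    (hk : ∀ j, (Φ j).card ≤ k) {q : ℝ} (hq0 : 0 < q) (hq1 : q ≤ 1) (hΔ : Δ = e * (p - 1) * w1 + 1) (hD1 : D1 = e * Δ)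
    (he : e ≤ Dm) (hD1m : D1 ≤ Dm) (hd1 : Dm + (Δ + e) + e * (p + 1) ≤ d)
    (hd2 : Dm + 2 * (D1 * (p - 1) * w2) + (f + 3) * ((s + 1) * D1 + k + 1) + Δ + e + D1 + D1 * (p + 1) ≤ d)
    (hN : (N : ℝ) * ((tau (TT p Φ d) q (Dm - e) e + (1 - (1 - 1 / (p : ℝ)) * q ^ e) ^ w1 * U0 (TT p Φ d) q Dm) +
      (tau (TT p Φ d) q (Dm - D1) D1 + (1 - (1 - 1 / (p : ℝ)) * q ^ D1) ^ w2 * U0 (TT p Φ d) q Dm)) <
      U0 (TT p Φ d) q Dm) : ¬ Refutes p e f s Φ N := by
  rintro ⟨M, G, l, hM, hN1, hG, hl, hlast, hstep⟩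
  have hp2 : 2 ≤ p := (Fact.out : p.Prime).two_le
  have hp0 : (0 : ℝ) < p := by exact_mod_cast (by omega : 0 < p)
  have hp1 : (0 : ℝ) ≤ 1 - 1 / (p : ℝ) := by
    rw [sub_nonneg, div_le_one hp0]
    exact_mod_cast (by omega : 1 ≤ p)
  have hp1' : 1 - 1 / (p : ℝ) ≤ 1 := by
    have : 0 ≤ 1 / (p : ℝ) := by positivity
    linarith
  set T := TT p Φ d with hT
  have hU0nn : 0 ≤ U0 T q Dm := by
    refine Finset.sum_nonneg fun D _ => mul_nonneg (pow_nonneg hq0.le _) ?_
    have h : Module.finrank (ZMod p) ↥(T.P D ⊓ T.K) ≤ Module.finrank (ZMod p) (T.P D) := Submodule.finrank_mono inf_le_left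
    have h' : (Module.finrank (ZMod p) ↥(T.P D ⊓ T.K) : ℝ) ≤ Module.finrank (ZMod p) (T.P D) := by exact_mod_cast h
    rw [hD]
    linarith
  -- gates
  obtain ⟨aG, haG⟩ := approx_all T G (e := e) (Dm := Dm) (w := w1) he (fun j g hg => (hG j g hg).1)
    (fun j g hg => cond_idem (hG j g hg)) (by change Dm + (e * (p - 1) * w1 + e) + e * (p + 1) ≤ d; omega) hq0.le hq1
  set b : Fin M → Pt n → ZMod p := fun j => 1 - aG j with hb
  have hbb : ∀ j, b j * b j = b j := by
    intro j
    have h1 := (haG j).2.1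
    calc b j * b j = 1 - aG j - aG j + aG j * aG j := by rw [hb]; ring
      _ = b j := by rw [h1, hb]; ring
  have h01 : ∀ j x, b j x = 0 ∨ b j x = 1 := fun j x => idem_01 (hbb j) x
  have haGP : ∀ j, aG j ∈ PP p n Δ := fun j => PP_mono (by omega) (haG j).1
  have hbP : ∀ j, b j ∈ PP p n Δ := fun j => (PP p n Δ).sub_mem (PP_mono (Nat.zero_le _) PP_one) (haGP j)
  have hΔ1 : 1 ≤ Δ := by omega
  -- lines
  have hL2 : ∀ i : Fin N, ∀ g ∈ psi b '' (l i), Cond D1 g := by
    rintro i _ ⟨F, hF, rfl⟩
    rw [hD1]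
    exact psi_cond b h01 hΔ1 hbP (hl i i.2 F hF)
  obtain ⟨aL, haL⟩ := approx_all T (fun i : Fin N => psi b '' (l i)) (e := D1) (Dm := Dm) (w := w2) hD1m
    (fun i g hg => (hL2 i g hg).1) (fun i g hg => cond_idem (hL2 i g hg))
    (by change Dm + (D1 * (p - 1) * w2 + D1) + D1 * (p + 1) ≤ d; omega) hq0.le hq1
  -- the multiplier
  obtain ⟨D, F0, hDm, hF0, hF0K, hF0a⟩ := choose_f T (ι := Fin M ⊕ Fin N) (Sum.elim aG aL)
    (Sum.elim G (fun i : Fin N => psi b '' (l i))) (Dm := Dm) hq0 (by
      rw [Fintype.sum_sum_type]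
      simp only [Sum.elim_inl, Sum.elim_inr]
      refine lt_of_le_of_lt ?_ hN
      have s1 := Finset.sum_le_sum fun (j : Fin M) (_ : j ∈ Finset.univ) => (haG j).2.2.2
      have s2 := Finset.sum_le_sum fun (i : Fin N) (_ : i ∈ Finset.univ) => (haL i).2.2.2
      rw [Finset.sum_const, Finset.card_univ, Fintype.card_fin, nsmul_eq_mul] at s1 s2
      have h3 : 0 ≤ tau T q (Dm - e) e + (1 - (1 - 1 / (p : ℝ)) * q ^ e) ^ w1 * U0 T q Dm := by
        refine add_nonneg (Finset.sum_nonneg fun D _ => mul_nonneg (pow_nonneg hq0.le D) (Nat.cast_nonneg _)) ?_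
        refine mul_nonneg (pow_nonneg ?_ _) hU0nn
        have := mul_le_one₀ hp1' (pow_nonneg hq0.le e) (pow_le_one₀ hq0.le hq1)
        linarith
      have h4 : (M : ℝ) ≤ N := by exact_mod_cast hM
      have h5 := mul_le_mul_of_nonneg_right h4 h3
      rw [mul_add]
      linarith)
  have hgate : ∀ j, ∀ g ∈ G j, F0 * (aG j * g) ∈ KK p Φ d := fun j g hg => hF0a (Sum.inl j) g hg
  have hline : ∀ i : Fin N, ∀ g ∈ psi b '' (l i), F0 * (aL i * g) ∈ KK p Φ d := fun i g hg => hF0a (Sum.inr i) g hg
  have hF0P : F0 ∈ PP p n D := hF0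
  set W := D1 * (p - 1) * w2 with hW
  have haLP : ∀ i, aL i ∈ PP p n W := fun i => (haL i).1
  -- the claim
  have claim : ∀ i, ∀ hi : i < N, F0 * aL ⟨i, hi⟩ ∈ KK p Φ d := by
    intro i
    induction i using Nat.strong_induction_on with
    | _ i ih =>
      intro hi
      set a := aL ⟨i, hi⟩ with ha
      have haP : a ∈ PP p n W := haLP _
      rcases hstep i hi with ⟨j, hj⟩ | ⟨J, Jc, hJ, hJc, hJi, hinf⟩
      · rcases hj with ⟨g, hg, h1, h2⟩ | ⟨h1, h2⟩
        · -- g implies gate
          have k1 : F0 * (a * (1 - g)) ∈ KK p Φ d := by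
            refine hline ⟨i, hi⟩ (1 - g) ⟨1 - lift M g, h1, ?_⟩
            rw [map_sub, psi_one, psi_lift]
          have k2 : F0 * (a * b j) ∈ KK p Φ d := by
            refine hline ⟨i, hi⟩ (b j) ⟨gate n j, h2, ?_⟩
            rw [psi_gate b h01]
          have k3 := hgate j g hg
          have hgP : g ∈ PP p n e := (hG j g hg).1
          have k4 : F0 * (a * b j) * g ∈ KK p Φ d :=
            KK_abs Φ k2 (PP_mul hF0P (PP_mul haP (hbP j))) hgP (by omega)
          have k5 : F0 * (aG j * g) * a ∈ KK p Φ d :=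
            KK_abs Φ k3 (PP_mul hF0P (PP_mul (haGP j) hgP)) haP (by omega)
          have : F0 * a = F0 * (a * (1 - g)) + F0 * (a * b j) * g + F0 * (aG j * g) * a := by
            rw [hb]
            ring
          rw [this]
          exact (KK p Φ d).add_mem ((KK p Φ d).add_mem k1 k4) k5
        · -- gate implies one of the g
          have k1 : F0 * (a * (1 - b j)) ∈ KK p Φ d := by
            refine hline ⟨i, hi⟩ (1 - b j) ⟨1 - gate n j, h1, ?_⟩
            rw [map_sub, psi_one, psi_gate b h01]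
          have k2 : ∀ g ∈ G j, F0 * (a * g) ∈ KK p Φ d := by
            intro g hg
            refine hline ⟨i, hi⟩ g ⟨lift M g, h2 g hg, ?_⟩
            rw [psi_lift]
          obtain ⟨mm, c, g, hc, hg, hsum⟩ := (haG j).2.2.1
          have k3 : ∀ r, F0 * (a * g r) * c r ∈ KK p Φ d := fun r =>
            KK_abs Φ (k2 (g r) (hg r)) (PP_mul hF0P (PP_mul haP (hG j _ (hg r)).1))
              (PP_mono (by omega : e * (p - 1) * w1 ≤ Δ) (hc r)) (by omega)
          have k4 : ∑ r, F0 * (a * g r) * c r ∈ KK p Φ d := Submodule.sum_mem _ fun r _ => k3 r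
          have k5 : ∑ r, F0 * (a * g r) * c r = F0 * (a * b j) := by
            have : b j = ∑ r, c r * g r := hsum
            rw [this, Finset.mul_sum, Finset.mul_sum]
            exact Finset.sum_congr rfl fun r _ => by ring
          have : F0 * a = F0 * (a * (1 - b j)) + F0 * (a * b j) := by ring
          rw [this, ← k5]
          exact (KK p Φ d).add_mem k1 k4
      · -- local inference
        have hc0 : Cond 0 (0 : Pt n → ZMod p) := ⟨(PP p n 0).zero_mem, fun x => Or.inl rfl⟩
        let Ln : ℕ → Line p n D1 0 := fun i =>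
          { E := {g | g ∈ psi b '' (l i) ∧ Cond D1 g}, hE := fun g hg => hg.2, h := 0, hh := hc0 }
        have hLE : ∀ j, j < N → (Ln j).E = psi b '' (l j) := by
          intro j hj
          ext g
          exact ⟨fun h => h.1, fun h => ⟨h, hL2 ⟨j, hj⟩ g h⟩⟩
        let aa : ℕ → Pt n → ZMod p := fun j => if h : j < N then aL ⟨j, h⟩ else 1
        have haa : ∀ j, ∀ h : j < N, aa j = aL ⟨j, h⟩ := fun j h => dif_pos h
        have hspan : ∀ (X Y : Set (Pt (M + n) → ZMod p)) (g : Pt (M + n) → ZMod p),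
            g ∈ Submodule.span (ZMod p) (X ∪ Y) → psi b g ∈ Submodule.span (ZMod p) (psi b '' X ∪ psi b '' Y) := by
          intro X Y g hg
          rw [← Set.image_union, ← Submodule.map_span]
          exact Submodule.mem_map_of_mem hg
        obtain ⟨A, B, hA, hBc, hB, hsem⟩ := hinf
        have hinf' : SizeDegree.Infers s Φ Jc Ln J (Ln i) := by
          refine ⟨fun j => (A j).image (psi b), B.image (psi b), fun j hj => ⟨?_, ?_, ?_⟩, ?_, ?_, ?_⟩
          · exact Finset.card_image_le.trans (hA j hj).1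
          · intro g hg
            obtain ⟨F, hF, rfl⟩ := Finset.mem_image.mp hg
            rw [hD1]
            exact psi_cond b h01 hΔ1 hbP ((hA j hj).2.1 F hF)
          · rw [hLE j (lt_trans (hJi j hj) hi), hLE i hi]
            rintro _ ⟨F, hF, rfl⟩
            have h1 := hspan _ _ F ((hA j hj).2.2 hF)
            rw [Finset.coe_image]
            exact h1
          · exact Finset.card_image_le.trans hBc
          · intro g hg
            obtain ⟨F, hF, rfl⟩ := Finset.mem_image.mp hg
            refine ⟨?_, ?_⟩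
            · rw [hD1]
              exact psi_cond b h01 hΔ1 hbP (hB F hF).1
            · rw [hLE i hi, ← Submodule.map_span]
              exact Submodule.mem_map_of_mem (hB F hF).2
          · intro x hx hprem
            right
            obtain ⟨F, hF, hFx⟩ := hsem (mix b x) (fun j hj => by rw [vars_mix]; exact hx j hj) (fun j hj => by
              rcases hprem j hj with h | ⟨g, hg, hgx⟩
              · exact absurd h (by change (0 : ZMod p) ≠ 1; exact zero_ne_one)
              · obtain ⟨F, hF, rfl⟩ := Finset.mem_image.mp hg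
                exact ⟨F, hF, hgx⟩)
            exact ⟨psi b F, Finset.mem_image_of_mem _ hF, hFx⟩
        have h0 := sound_step (e := D1) (t := 0) (W := W) Φ hk Ln J Jc hJ hJc hinf' hF0P aa
          (by
            intro j hj
            have hjN : j < N := by
              rcases Finset.mem_insert.mp hj with rfl | hj
              · exact hi
              · exact lt_trans (hJi j hj) hi
            rw [haa j hjN]
            exact haLP _)
          (by
            intro j hj
            have hjN := lt_trans (hJi j hj) hi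
            rw [haa j hjN, hLE j hjN]
            exact (haL ⟨j, hjN⟩).2.2.1)
          (by
            intro g hg
            rw [hLE i hi] at hg
            rw [haa i hi]
            exact hline ⟨i, hi⟩ g hg)
          (by
            intro j hj
            have hjN := lt_trans (hJi j hj) hi
            rw [haa j hjN]
            change F0 * (aL ⟨j, hjN⟩ * (1 - 0)) ∈ KK p Φ d
            rw [sub_zero, mul_one]
            exact ih j (hJi j hj) hjN)
          (by
            have : (f + 3) * (0 + (s + 1) * D1 + k + 1) = (f + 3) * ((s + 1) * D1 + k + 1) := by rw [zero_add]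
            omega)
        rw [haa i hi] at h0
        change F0 * (aL ⟨i, hi⟩ * (1 - 0)) ∈ KK p Φ d at h0
        rwa [sub_zero, mul_one] at h0
  -- the last line
  have hNlt : N - 1 < N := by omega
  have hc := claim (N - 1) hNlt
  obtain ⟨mm, c, g, -, hg, hsum⟩ := (haL ⟨N - 1, hNlt⟩).2.2.1
  have h1 : ∑ r, c r * g r = 0 := by
    refine Finset.sum_eq_zero fun r _ => ?_
    have h2 := hg r
    simp only [hlast, Set.image_empty] at h2
    exact absurd h2 (Set.notMem_empty _)
  rw [h1, sub_eq_zero] at hsum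
  rw [← hsum, mul_one] at hc
  exact hF0K hc

end H91D2
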