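import Pool.Agent.H69.SD.RDefs

/-!
Definitions for the lower bound for lines which are disjunctions of polynomials in gates (helper91; project MP_28250c_D2).
The gates are disjunctions of conditions on the variables; conditions, clauses and degrees are those of `SizeDegree`.
-/

set_option autoImplicit false
open scoped Classical

namespace GateLines

open SizeDegree

/-- The assignment of the `n` variables in an assignment `z` of `M` gates and `n` variables. -/
def vars {M n : ℕ} (z : Pt (M + n)) : Pt n := fun i => z (Fin.natAdd M i)

/-- A function of the variables as a function of the gates and the variables. -/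
def lift {p n : ℕ} (M : ℕ) (g : Pt n → ZMod p) : Pt (M + n) → ZMod p := fun z => g (vars z)

/-- The gate `j` as a function of the gates and the variables. -/
def gate {p M : ℕ} (n : ℕ) (j : Fin M) : Pt (M + n) → ZMod p := fun z => if z (Fin.castAdd n j) then 1 else 0

/-- Local inference of the line `C` from the lines `l j`, `j ∈ J`, and the clauses `Φ j`, `j ∈ Jc`: there are at most `s`
main conditions `A j` for every premise and `B` for the conclusion such that the conditions of the premise `l j` are linear
combinations of conditions of `C` (side conditions) and of `A j`, the conditions in `B` are linear combinations of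
conditions of `C`, and the inference from the main conditions is sound for all values of the gates and the variables. -/
def Infers {p M n m : ℕ} (e s : ℕ) (Φ : Fin m → Clause n) (Jc : Finset (Fin m)) (l : ℕ → Set (Pt (M + n) → ZMod p))
    (J : Finset ℕ) (C : Set (Pt (M + n) → ZMod p)) : Prop :=
  ∃ (A : ℕ → Finset (Pt (M + n) → ZMod p)) (B : Finset (Pt (M + n) → ZMod p)),
    (∀ j ∈ J, (A j).card ≤ s ∧ (∀ g ∈ A j, Cond e g) ∧
      l j ⊆ Submodule.span (ZMod p) (C ∪ (A j : Set (Pt (M + n) → ZMod p)))) ∧
    B.card ≤ s ∧ (∀ g ∈ B, Cond e g ∧ g ∈ Submodule.span (ZMod p) C) ∧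
    ∀ z, (∀ j ∈ Jc, (Φ j).Holds (vars z)) → (∀ j ∈ J, ∃ g ∈ A j, g z = 1) → ∃ g ∈ B, g z = 1

/-- The axioms which say that the gate `j` is the disjunction of the conditions in `G j`: the line `C` contains the negation of `g`
and the gate `j` for some `g` in `G j`, or it contains the negation of the gate `j` and all conditions in `G j`. -/
def GateAxiom {p M n : ℕ} (G : Fin M → Set (Pt n → ZMod p)) (C : Set (Pt (M + n) → ZMod p)) : Prop :=
  ∃ j, (∃ g ∈ G j, 1 - lift M g ∈ C ∧ gate n j ∈ C) ∨ (1 - gate n j ∈ C ∧ ∀ g ∈ G j, lift M g ∈ C)

/-- The CNF `Φ` has a refutation of size `N`: there are at most `N` gates, each of them the disjunction of a set `G j` of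
conditions of degree at most `e` in the variables, and `N` lines, each of them (read as) the disjunction of a set of
conditions of degree at most `e` in the gates and the variables; every line is a gate axiom or is inferred from at most `f`
earlier lines and at most `f` clauses with at most `s` main conditions per line; the last line is the empty disjunction. -/
def Refutes {n m : ℕ} (p e f s : ℕ) (Φ : Fin m → Clause n) (N : ℕ) : Prop :=
  ∃ (M : ℕ) (G : Fin M → Set (Pt n → ZMod p)) (l : ℕ → Set (Pt (M + n) → ZMod p)), M ≤ N ∧ 1 ≤ N ∧
    (∀ j, ∀ g ∈ G j, Cond e g) ∧ (∀ i < N, ∀ g ∈ l i, Cond e g) ∧ l (N - 1) = ∅ ∧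
    ∀ i < N, GateAxiom G (l i) ∨ ∃ (J : Finset ℕ) (Jc : Finset (Fin m)), J.card ≤ f ∧ Jc.card ≤ f ∧ (∀ j ∈ J, j < i) ∧
      Infers e s Φ Jc l J (l i)

end GateLines
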